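import Pool.Agent.Work.MP_15bafc_al.ZIso

/-!
# Hall subgroups in the class `𝒵` and the character table
-/

namespace Pool.Agent.Results.MP_15bafc_al.HallClassZ

open HallTab

universe u v

/-- Let `G` and `K` be finite groups with the same character table and `π` a set of primes.
Then `G` has a Hall `π`-subgroup in the class `𝒵` exactly when `K` does; and the same holds for the
property `HasHallZ` that `G / N` has such a Hall subgroup for some normal subgroup `N` with a
`G`-series each of whose factors is a `π`-group or has order divisible by at most one prime of `π`.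
In this case both groups have Hall `π`-subgroups. If `G` has a Hall `π`-subgroup `H` all of whose
Sylow subgroups are cyclic, then `K` has a Hall `π`-subgroup isomorphic to `H`. All groups with a
normal subgroup of prime power index whose Sylow subgroups are cyclic belong to `𝒵`. -/
theorem result (G : Type u) (K : Type v) [Group G] [Group K] [Finite G] [Finite K]
    (h : SameTable G K) (π : Set ℕ) :
    ((∃ H : Subgroup G, IsHallSubgroup π H ∧ ClassZ H) ↔
      ∃ H : Subgroup K, IsHallSubgroup π H ∧ ClassZ H) ∧
    (HasHallZ π G ↔ HasHallZ π K) ∧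
    (HasHallZ π G → HasHall π G ∧ HasHall π K) ∧
    (∀ H : Subgroup G, IsHallSubgroup π H → IsZGroup H →
      ∃ H' : Subgroup K, IsHallSubgroup π H' ∧ Nonempty (H ≃* H')) ∧
    (∀ (N : Subgroup G) [N.Normal], PiLayered π N → ∀ H : Subgroup (G ⧸ N),
      IsHallSubgroup π H → ∀ (A : Subgroup H) (q k : ℕ), A.Normal → IsZGroup A → q.Prime →
      A.index = q ^ k → HasHallZ π G) := by
  obtain ⟨L⟩ := h.link
  have h1 : HasHallZ π G ↔ HasHallZ π K := ⟨L.hasHallZ_right, L.symm.hasHallZ_right⟩
  refine ⟨⟨L.classZ_right, L.symm.classZ_right⟩, h1,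
    fun hG => ⟨hG.hasHall, (h1.mp hG).hasHall⟩, fun H hH hz => L.isZGroup_right hH hz, ?_⟩
  intro N _ hN H hH A q k hA1 hA2 hq hk
  exact ⟨N, inferInstance, hN, H, hH, classZ_of_index_pow A hq hk⟩

end Pool.Agent.Results.MP_15bafc_al.HallClassZ
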